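import Pool.Agent.H72.EM.Basic
import Pool.Agent.H68.NPH.Prog

/-!
# Exact matching in cubic graphs: the arcs as conditions of the generator language (helper72)
-/

set_option autoImplicit false

open Finset

namespace Pool.Agent.H72.EMC

open Pool.Agent.H72.EM Pool.Agent.H68.NPH Pool.Agent.H68.OQP

/-! ### The entries of the matrix -/

theorem mat_ofFn {n : ℕ} (c : Fin n → Fin n → ℕ) :
    mat c = List.ofFn (fun k : Fin (n * n) => nat c (k.val / n) (k.val % n)) := by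
  rw [List.ofFn_mul]
  unfold mat
  rw [List.flatMap_def, ← List.ofFn_eq_map]
  congr 1
  congr 1
  funext i
  rw [← List.ofFn_eq_map]
  congr 1
  funext j
  have hn : 0 < n := i.pos
  have h1 : (i.val * n + j.val) / n = i.val := by
    rw [Nat.add_comm, Nat.add_mul_div_right _ _ hn, Nat.div_eq_of_lt j.2, Nat.zero_add]
  have h2 : (i.val * n + j.val) % n = j.val := by
    rw [Nat.add_comm, Nat.add_mul_mod_self_right, Nat.mod_eq_of_lt j.2]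
  simp only [h1, h2]
  simp [nat]

theorem mat_length {n : ℕ} (c : Fin n → Fin n → ℕ) : (mat c).length = n * n := by
  rw [mat_ofFn, List.length_ofFn]

theorem mat_getD {n : ℕ} (c : Fin n → Fin n → ℕ) (k : ℕ) (t : List ℕ) (i j : ℕ) (hi : i < n)
    (hj : j < n) : (k :: n :: (mat c ++ t)).getD (2 + (n * i + j)) 0 = nat c i j := by
  have hlt : n * i + j < n * n := by
    calc n * i + j < n * i + n := by omega
      _ = n * (i + 1) := by ring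
      _ ≤ n * n := Nat.mul_le_mul_left _ hi
  have h0 : 2 + (n * i + j) = (n * i + j) + 1 + 1 := by omega
  rw [h0, List.getD_cons_succ, List.getD_cons_succ, List.getD_append _ _ _ _ (by rw [mat_length]; exact hlt),
    List.getD_eq_getElem _ _ (by rw [mat_length]; exact hlt)]
  simp only [mat_ofFn, List.getElem_ofFn]
  have hn : 0 < n := by omega
  have h1 : (n * i + j) / n = i := by
    rw [Nat.add_comm, Nat.mul_comm, Nat.add_mul_div_right _ _ hn, Nat.div_eq_of_lt hj, Nat.zero_add]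
  have h2 : (n * i + j) % n = j := by
    rw [Nat.add_comm, Nat.mul_comm, Nat.add_mul_mod_self_right, Nat.mod_eq_of_lt hj]
  rw [h1, h2]

/-! ### Conditions -/

/-- successor -/
def A1 (a : Ex) : Ex := .add a (.con 1)
/-- numerals -/
def K (a : ℕ) : Ex := .con a
/-- the entry -/
def En (n i j : Ex) : Ex := .inp (.add (.con 2) (.add (.mul n i) j))

def cN (n i p i' p' : Ex) : Cd :=
  Cd.or (Cd.and (Cd.eq i' i) (Cd.eq p' (A1 p))) (Cd.or (Cd.and (Cd.eq p n) (Cd.and (Cd.eq p' (K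
    0)) (Cd.eq i' (A1 i)))) (Cd.and (Cd.eq p n) (Cd.and (Cd.eq p' (K 0)) (Cd.and (Cd.eq (A1 i)
    n) (Cd.eq i' (K 0))))))

def cC (n i p s i' p' s' : Ex) : Cd :=
  Cd.or (Cd.and (Cd.eq s (K 0)) (Cd.and (Cd.eq s' (K 0)) (Cd.and (Cd.eq (A1 i') p) (Cd.and
    (Cd.eq p' (A1 i)) (Cd.and (Cd.not (Cd.eq (En n i i') (K 0))) (Cd.not (Cd.eq (En n i i') (K
    2)))))))) (Cd.or (Cd.and (Cd.eq s (K 4)) (Cd.and (Cd.eq s' (K 4)) (Cd.and (Cd.eq (A1 i') p)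
    (Cd.and (Cd.eq p' (A1 i)) (Cd.not (Cd.eq (En n i i') (K 0))))))) (Cd.or (Cd.and (Cd.eq s (K
    0)) (Cd.and (Cd.eq s' (K 4)) (Cd.and (Cd.eq (A1 i') p) (Cd.and (Cd.eq p' (A1 i)) (Cd.eq (En
    n i i') (K 0)))))) (Cd.or (Cd.and (Cd.eq s (K 0)) (Cd.and (Cd.eq s' (K 4)) (Cd.and (Cd.eq p
    (K 0)) (Cd.and (Cd.eq p' (K 0)) (Cd.eq i' i))))) (Cd.or (Cd.and (Cd.eq s (K 1)) (Cd.and
    (Cd.eq s' (K 1)) (Cd.and (Cd.eq p (K 0)) (Cd.and (Cd.eq p' (K 0)) (Cd.eq (.mul (K 2) i')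
    (.add (.mul (K 2) i) n)))))) (Cd.or (Cd.and (Cd.eq s (K 1)) (Cd.and (Cd.eq s' (K 5))
    (Cd.and (Cd.eq i' i) (Cd.and (Cd.eq p' p) (Cd.and (Cd.le (K 1) p) (Cd.le p i)))))) (Cd.or
    (Cd.and (Cd.eq s (K 1)) (Cd.and (Cd.eq s' (K 5)) (Cd.and (Cd.eq i' i) (Cd.and (Cd.eq p (A1
    p')) (Cd.lt (A1 i) p))))) (Cd.or (Cd.and (Cd.eq s (K 1)) (Cd.and (Cd.eq s' (K 5)) (Cd.and
    (Cd.eq (A1 i) p) (Cd.and (Cd.eq i (A1 i')) (Cd.eq p' n))))) (Cd.or (Cd.and (Cd.eq s (K 1))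
    (Cd.and (Cd.eq s' (K 5)) (Cd.and (Cd.eq i (K 0)) (Cd.and (Cd.eq p (K 1)) (Cd.and (Cd.eq (A1
    i') n) (Cd.eq p' (K 0))))))) (Cd.or (Cd.and (Cd.eq s (K 5)) (Cd.and (Cd.eq s' (K 5))
    (Cd.and (Cd.eq p (K 0)) (Cd.and (Cd.eq p' (K 0)) (Cd.and (Cd.le (K 1) i) (Cd.and (Cd.le
    (.add (.mul (K 2) i) (K 2)) n) (Cd.eq (.add (.mul (K 2) i') (K 2)) (.add (.mul (K 2) i)
    n)))))))) (Cd.or (Cd.and (Cd.eq s (K 3)) (Cd.and (Cd.eq s' (K 6)) (Cd.and (Cd.eq i' i)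
    (Cd.and (Cd.eq p' p) (Cd.or (Cd.le (K 1) i) (Cd.le (K 1) p)))))) (Cd.or (Cd.and (Cd.eq s (K
    3)) (Cd.and (Cd.eq s' (K 5)) (Cd.and (Cd.eq i (K 0)) (Cd.and (Cd.eq p (K 0)) (Cd.and (Cd.eq
    i' (K 0)) (Cd.eq p' (K 0))))))) (Cd.or (Cd.and (Cd.eq s (K 6)) (Cd.and (Cd.eq s' (K 5))
    (Cd.and (Cd.eq i (K 0)) (Cd.and (Cd.eq p (K 0)) (Cd.and (Cd.eq (A1 i') n) (Cd.eq p' n))))))
    (Cd.and (Cd.eq s (K 7)) (Cd.and (Cd.eq s' (K 2)) (cN n i p i' p')))))))))))))))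

def cI (M p s r r' : Ex) : Cd :=
  Cd.or (Cd.and (Cd.eq r (K 0)) (Cd.eq r' (K 1))) (Cd.or (Cd.and (Cd.eq r (K 1)) (Cd.eq r' (K
    3))) (Cd.or (Cd.and (Cd.eq r (K 2)) (Cd.eq r' (K 3))) (Cd.or (Cd.and (Cd.eq r (K 3)) (Cd.eq
    r' (K 4))) (Cd.or (Cd.and (Cd.eq r (K 4)) (Cd.eq r' (K 5))) (Cd.or (Cd.and (Cd.eq p (K 0))
    (Cd.and (Cd.eq s (K 1)) (Cd.and (Cd.eq r (K 0)) (Cd.eq r' (.add M (K 4)))))) (Cd.or (Cd.and
    (Cd.eq p (K 0)) (Cd.and (Cd.eq s (K 1)) (Cd.and (Cd.eq r (K 2)) (Cd.eq r' (.add (.mul (K 2)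
    M) (K 4)))))) (Cd.or (Cd.and (Cd.or (Cd.le (K 1) p) (Cd.le (K 2) s)) (Cd.and (Cd.eq r (K
    0)) (Cd.eq r' (.add (.mul (K 2) M) (K 4))))) (Cd.or (Cd.and (Cd.or (Cd.le (K 1) p) (Cd.le
    (K 2) s)) (Cd.and (Cd.eq r (K 2)) (Cd.eq r' (.add M (K 4))))) (Cd.and (Cd.le (.add (K 5) M)
    r) (Cd.and (Cd.lt r' (.add (K 5) M)) (Cd.eq (A1 r) (.add r' M))))))))))))

def cB (n M i p s r i' p' s' r' : Ex) : Cd :=
  Cd.or (Cd.and (Cd.eq s' (A1 s)) (Cd.and (Cd.eq i' i) (Cd.and (Cd.eq p' p) (Cd.and (Cd.eq r'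
    (K 1)) (Cd.and (Cd.eq s (K 0)) (Cd.eq r (K 0))))))) (Cd.or (Cd.and (Cd.eq s' (A1 s))
    (Cd.and (Cd.eq i' i) (Cd.and (Cd.eq p' p) (Cd.and (Cd.eq r' (K 1)) (Cd.and (Cd.le (K 1) s)
    (Cd.eq r (K 2))))))) (Cd.or (Cd.and (Cd.eq s (K 7)) (Cd.and (Cd.eq s' (K 0)) (Cd.and (Cd.eq
    r (K 2)) (Cd.and (Cd.eq r' (K 0)) (cN n i p i' p'))))) (Cd.or (Cd.and (Cd.eq r (K 0))
    (Cd.and (Cd.eq r' (K 0)) (cC n i p s i' p' s'))) (Cd.and (Cd.le (K 1) s) (Cd.and (Cd.eq s'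
    s) (Cd.and (Cd.eq i' i) (Cd.and (Cd.eq p' p) (cI M p s r r'))))))))

def cR (n M i p s r i' p' s' r' : Ex) : Cd :=
  Cd.or (Cd.and (Cd.eq r (K 0)) (Cd.and (Cd.eq r' (K 0)) (Cd.and (Cd.eq s (K 0)) (Cd.and (Cd.eq
    s' (K 0)) (Cd.and (Cd.eq (A1 i') p) (Cd.and (Cd.eq p' (A1 i)) (Cd.eq (En n i i') (K
    2)))))))) (Cd.or (Cd.and (Cd.le (K 1) s) (Cd.and (Cd.eq s' s) (Cd.and (Cd.eq i' i) (Cd.and
    (Cd.eq p' p) (Cd.and (Cd.eq r (K 4)) (Cd.eq r' (.add (K 5) M))))))) (Cd.or (Cd.and (Cd.le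
    (K 1) s) (Cd.and (Cd.eq s' s) (Cd.and (Cd.eq i' i) (Cd.and (Cd.eq p' p) (Cd.and (Cd.le (K
    5) r) (Cd.and (Cd.lt r (.add (K 5) M)) (Cd.eq r' (.add r M)))))))) (Cd.and (Cd.le (K 1) s)
    (Cd.and (Cd.eq s' s) (Cd.and (Cd.eq i' i) (Cd.and (Cd.eq p' p) (Cd.and (Cd.le (K 5) r)
    (Cd.and (Cd.lt (A1 r) (.add (K 5) M)) (Cd.eq r' (A1 (.add r M)))))))))))

variable {l env : List ℕ}

theorem cN_tv (n i p i' p' : Ex) : (cN n i p i' p').tv l env ↔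
    aN (n.val l env) (i.val l env) (p.val l env) (i'.val l env) (p'.val l env) := by
  simp only [cN, tv_and, tv_or, tv_eq, tv_le, tv_lt, tv_not, Ex.val, A1, K, aN]

theorem cC_tv (c : ℕ → ℕ → ℕ) (n i p s i' p' s' : Ex)
    (h : (En n i i').val l env = c (i.val l env) (i'.val l env)) :
    (cC n i p s i' p' s').tv l env ↔
    aC (n.val l env) c (i.val l env) (p.val l env) (s.val l env) (i'.val l env) (p'.val l env)
      (s'.val l env) := by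
  simp only [cC, tv_and, tv_or, tv_eq, tv_le, tv_lt, tv_not, cN_tv, h, A1, K, Ex.val, aC, ne_eq]

theorem cI_tv (M p s r r' : Ex) : (cI M p s r r').tv l env ↔
    aI (M.val l env) (p.val l env) (s.val l env) (r.val l env) (r'.val l env) := by
  simp only [cI, tv_and, tv_or, tv_eq, tv_le, tv_lt, tv_not, A1, K, Ex.val, aI]

theorem cB_tv (c : ℕ → ℕ → ℕ) (n M i p s r i' p' s' r' : Ex)
    (h : (En n i i').val l env = c (i.val l env) (i'.val l env)) :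
    (cB n M i p s r i' p' s' r').tv l env ↔
    aB (n.val l env) (M.val l env) c (i.val l env) (p.val l env) (s.val l env) (r.val l env)
      (i'.val l env) (p'.val l env) (s'.val l env) (r'.val l env) := by
  simp only [cB, tv_and, tv_or, tv_eq, tv_le, tv_lt, tv_not, cN_tv, cI_tv, cC_tv c _ _ _ _ _ _ _ h,
    A1, K, Ex.val, aB]

theorem cR_tv (c : ℕ → ℕ → ℕ) (n M i p s r i' p' s' r' : Ex)
    (h : (En n i i').val l env = c (i.val l env) (i'.val l env)) :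
    (cR n M i p s r i' p' s' r').tv l env ↔
    aR (M.val l env) c (i.val l env) (p.val l env) (s.val l env) (r.val l env)
      (i'.val l env) (p'.val l env) (s'.val l env) (r'.val l env) := by
  simp only [cR, tv_and, tv_or, tv_eq, tv_le, tv_lt, tv_not, h, A1, K, Ex.val, aR]

/-- powers -/
def Pw (a : Ex) : ℕ → Ex
  | 0 => .con 1
  | n + 1 => .mul (Pw a n) a

theorem Pw_val (a : Ex) (n : ℕ) : (Pw a n).val l env = a.val l env ^ n := by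
  induction n with
  | zero => rfl
  | succ n ih => rw [Pw, Ex.val, ih, pow_succ]

/-- the order of the given graph -/
def En1 : Ex := .inp (.con 1)
/-- the number of columns -/
def EM' (e : ℕ) : Ex :=
  A1 (.add (A1 (.mul (.con 2) (.inp (.con 0)))) (Pw (.mul (.con 32) (.mul En1 (A1 En1))) e))

theorem pf_CD : T_CD := by
  intro e
  refine ⟨Cd.or (cR En1 (EM' e) (.var 7) (.var 6) (.var 5) (.var 4) (.var 3) (.var 2) (.var 1) (.var 0))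
  (cR En1 (EM' e) (.var 3) (.var 2) (.var 1) (.var 0) (.var 7) (.var 6) (.var 5) (.var 4)),
    Cd.or (cB En1 (EM' e) (.var 7) (.var 6) (.var 5) (.var 4) (.var 3) (.var 2) (.var 1) (.var 0))
  (cB En1 (EM' e) (.var 3) (.var 2) (.var 1) (.var 0) (.var 7) (.var 6) (.var 5) (.var 4)), ?_⟩
  intro κ k c t i p s r i' p' s' r' hi hi'
  have hM : (EM' e).val (k :: (2 * κ + 2) :: (mat c ++ t)) [r', s', p', i', r, s, p, i] =
      mm e κ k + 1 := by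
    simp only [EM', A1, En1, Ex.val, Pw_val, mm]
    rfl
  have h1 : (En En1 (.var 7) (.var 3)).val (k :: (2 * κ + 2) :: (mat c ++ t))
      [r', s', p', i', r, s, p, i] = nat c i i' := mat_getD c k t i i' hi hi'
  have h2 : (En En1 (.var 3) (.var 7)).val (k :: (2 * κ + 2) :: (mat c ++ t))
      [r', s', p', i', r, s, p, i] = nat c i' i := mat_getD c k t i' i hi' hi
  rw [tv_or, tv_or, cR_tv (nat c) _ _ _ _ _ _ _ _ _ _ h1, cR_tv (nat c) _ _ _ _ _ _ _ _ _ _ h2,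
    cB_tv (nat c) _ _ _ _ _ _ _ _ _ _ h1, cB_tv (nat c) _ _ _ _ _ _ _ _ _ _ h2, hM]
  exact ⟨Iff.rfl, Iff.rfl⟩

end Pool.Agent.H72.EMC
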