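import Pool.Agent.H72.EMC.NC

/-!
# Exact matching in cubic graphs: two colour classes connect the final graph (helper72)
-/

set_option autoImplicit false

open Finset

namespace Pool.Agent.H72.EMC

open Pool.Agent.H72.EM Relation

variable {κ m : ℕ}

/-- a vertex of the final graph for every host vertex -/
def rep : Hs κ → Vt κ m
  | (b, none) => (b, none)
  | (b, some s) => (b, some (s, .c1))

/-- the host vertex -/
def hv : Vt κ m → Hs κ
  | (b, none) => (b, none)
  | (b, some (s, _)) => (b, some s)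

theorem fcol_lft (x : Dt (Hs κ)) : fcol (lft x : Dt (Vt κ m)) = hcol x := by
  obtain ⟨⟨b, o⟩, l⟩ := x
  cases o with
  | none => rfl
  | some s =>
    rcases (by revert l; decide : ∀ l : Fin 3, l = 0 ∨ l = 1 ∨ l = 2) l with rfl | rfl | rfl <;> rfl

theorem hv_lft (x : Dt (Hs κ)) : hv (lft x : Dt (Vt κ m)).1 = x.1 := by
  obtain ⟨⟨b, o⟩, l⟩ := x
  cases o with
  | none => rfl
  | some s => rfl

theorem fc_pole (h6 : T_PC) (c : Ix κ → Ix κ → ℕ) (d : Fin 3) (b : Bk κ) (s : Sl) (q q' : PV m) :
    ReflTransGen (stp (ft c) fcol d) ((b, some (s, q)) : Vt κ m) (b, some (s, q')) := by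
  have h := h6 m (kd b s) (qcol (some s)) (ncol (some s)) (by cases s <;> decide)
    (by cases s <;> decide) (by cases s <;> decide) d q q'
  refine h.lift (fun q => ((b, some (s, q)) : Vt κ m)) ?_
  rintro u v ⟨a, a', h1, h2⟩
  refine ⟨a, h2, ?_⟩
  simp only [ft, h1]

theorem fc_rep (h6 : T_PC) (c : Ix κ → Ix κ → ℕ) (d : Fin 3) (v w : Vt κ m) (h : hv v = hv w) :
    ReflTransGen (stp (ft c) fcol d) v w := by
  obtain ⟨b, o⟩ := v
  obtain ⟨b', o'⟩ := w
  cases o with
  | none =>
    cases o' with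
    | none =>
      have h1 : b = b' := congrArg Prod.fst h
      rw [h1]
    | some x =>
      have h1 : (none : Option Sl) = some x.1 := congrArg Prod.snd h
      simp at h1
  | some x =>
    obtain ⟨s, q⟩ := x
    cases o' with
    | none =>
      have h1 : some s = (none : Option Sl) := congrArg Prod.snd h
      simp at h1
    | some x' =>
      obtain ⟨s', q'⟩ := x'
      have h1 : b = b' := congrArg Prod.fst h
      have h2 : some s = some s' := congrArg Prod.snd h
      have h3 : s = s' := by simpa using h2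
      subst h1 h3
      exact fc_pole h6 c d b s q q'

theorem hv_rep (h : Hs κ) : hv (rep h : Vt κ m) = h := by
  obtain ⟨b, o⟩ := h
  cases o <;> rfl

theorem pf_FC (h1 : T_TI) (h2 : T_PI) (h3 : T_H0) (h4 : T_H1) (h5 : T_H2) (h6 : T_PC) (h7 : T_TF) :
    T_FC := by
  intro κ m c hS d
  have hC : Cn (ht c) hcol d := by
    rcases (by revert d; decide : ∀ l : Fin 3, l = 0 ∨ l = 1 ∨ l = 2) d with rfl | rfl | rfl
    · exact h3 κ c hS
    · exact h4 κ c hS
    · exact h5 κ c hS
  intro v w
  have h8 : ∀ g g' : Hs κ, ReflTransGen (stp (ft c) fcol d) (rep g : Vt κ m) (rep g') := by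
    intro g g'
    have h9 := hC g g'
    induction h9 with
    | refl => exact ReflTransGen.refl
    | tail _ hst ih =>
      rename_i u u' _
      obtain ⟨l, h10, h11⟩ := hst
      refine ih.trans ?_
      have e1 : hv (rep u : Vt κ m) = hv (lft (u, l) : Dt (Vt κ m)).1 := by
        rw [hv_rep, hv_lft]
      have e2 : hv (ft c (lft (u, l) : Dt (Vt κ m))).1 = hv (rep u' : Vt κ m) := by
        rw [ft_lft, hv_lft, hv_rep, h11]
      refine (fc_rep h6 c d _ _ e1).trans (ReflTransGen.head ?_ (fc_rep h6 c d _ _ e2))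
      refine ⟨(lft (u, l) : Dt (Vt κ m)).2, ?_, rfl⟩
      have e3 : fcol (lft (u, l) : Dt (Vt κ m)) ≠ d := by rw [fcol_lft]; exact h10
      exact e3
  exact ((fc_rep h6 c d _ _ (by rw [hv_rep])).trans (h8 (hv v) (hv w))).trans (fc_rep h6 c d _ _ (by rw [hv_rep]))

end Pool.Agent.H72.EMC
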