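import Pool.Agent.H72.EMC.CD

/-!
# Exact matching in cubic graphs: the generator of the final graph (helper72)
-/

set_option autoImplicit false

open Finset

namespace Pool.Agent.H72.EMC

open Pool.Agent.H72.EM Pool.Agent.H68.NPH Pool.Agent.H68.OQP Pool.Agent.H1.NP

/-- sizes as expressions -/
def EP (e : ℕ) : Ex := .add (.mul (.con 2) (EM' e)) (.con 5)
def EB (e : ℕ) : Ex := .add (.con 1) (.mul (.con 7) (EP e))
def EN (e : ℕ) : Ex := .mul (.mul En1 (A1 En1)) (EB e)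

/-- loops over the coordinates -/
def LL (e : ℕ) (g : Lg) : Lg :=
  .loop En1 (.loop (A1 En1) (.loop (.con 8) (.loop (EP e)
    ((Cd.or (Cd.le (.con 1) (.var 1)) (Cd.le (.var 0) (.con 0))).ite g .nil))))

theorem EM'_val (e κ k : ℕ) (L env : List ℕ) :
    (EM' e).val (k :: (2 * κ + 2) :: L) env = mm e κ k + 1 := by
  simp only [EM', A1, En1, Ex.val, Pw_val, mm]
  rfl

theorem LL_out (e κ k : ℕ) (L env : List ℕ) (g : Lg) :
    (LL e g).out (k :: (2 * κ + 2) :: L) env =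
      cl κ (mm e κ k) fun i p s r => g.out (k :: (2 * κ + 2) :: L) (r :: s :: p :: i :: env) := by
  have h1 : ∀ env', (EP e).val (k :: (2 * κ + 2) :: L) env' = szP (mm e κ k) := by
    intro env'
    simp only [EP, Ex.val, EM'_val, szP]
  simp only [LL, Lg.out, cl]
  have h2 : ∀ env', En1.val (k :: (2 * κ + 2) :: L) env' = 2 * κ + 2 := fun _ => rfl
  have h3 : ∀ env', (A1 En1).val (k :: (2 * κ + 2) :: L) env' = 2 * κ + 3 := fun _ => rfl
  have h4 : ∀ env', (Ex.con 8).val (k :: (2 * κ + 2) :: L) env' = 8 := fun _ => rfl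
  simp only [h1, h2, h3, h4]
  congr 1
  funext i
  congr 1
  funext p
  congr 1
  funext s
  congr 1
  funext r
  rw [Cd.ite_out]
  have h5 : (Cd.or (Cd.le (.con 1) (.var 1)) (Cd.le (.var 0) (.con 0))).tv
      (k :: (2 * κ + 2) :: L) (r :: s :: p :: i :: env) ↔ (1 ≤ s ∨ r ≤ 0) := Iff.rfl
  by_cases h6 : 1 ≤ s ∨ r ≤ 0
  · rw [if_pos h6, if_pos (h5.2 h6)]
  · rw [if_neg h6, if_neg (fun h => h6 (h5.1 h))]
    rfl

open Classical in
theorem pf_GE (h1 : T_EC) (h2 : T_LS) (h3 : T_CD) : T_GE := by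
  intro e
  obtain ⟨R, B, hRB⟩ := h3 e
  refine ⟨.seq (.el (.inp (.con 0))) (.seq (.el (EN e)) (LL e (LL e
    (R.ite (.el (.con 2)) (B.ite (.el (.con 1)) (.el (.con 0))))))), ?_⟩
  intro κ k c t hS E hE
  have hN : (EN e).val (k :: (2 * κ + 2) :: (mat c ++ t)) [] = szN κ (mm e κ k) := by
    simp only [EN, EB, EP, Ex.val, EM'_val, szN, szB, szP]
    rfl
  simp only [Lg.out, LL_out, hN, List.cons_append, List.nil_append]
  rw [h2 κ (mm e κ k) E hE (fe c) (fun i p s r i' p' s' r' =>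
    if R.tv (k :: (2 * κ + 2) :: (mat c ++ t)) [r', s', p', i', r, s, p, i] then 2 else
    if B.tv (k :: (2 * κ + 2) :: (mat c ++ t)) [r', s', p', i', r, s, p, i] then 1 else 0) ?_]
  · refine congrArg (List.cons k) (congrArg (List.cons _) (congrArg (cl κ (mm e κ k)) ?_))
    funext i p s r
    refine congrArg (cl κ (mm e κ k)) ?_
    funext i' p' s' r'
    simp only [Cd.ite_out, Lg.out, Ex.val]
    split_ifs <;> rfl
  · intro v w
    have h4 := h1 κ (mm e κ k) c hS v w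
    have hv : ci v < 2 * κ + 2 := v.1.1.2
    have hw : ci w < 2 * κ + 2 := w.1.1.2
    obtain ⟨h5, h6⟩ := hRB κ k c t (ci v) (cp v) (cs v) (cr v) (ci w) (cp w) (cs w) (cr w) hv hw
    simp only [h5, h6]
    rcases h4 with ⟨h7, h8⟩ | ⟨h7, h8, h9⟩ | ⟨h7, h8, h9⟩
    · rw [h7, if_pos h8]
    · rw [h7, if_neg h8, if_pos h9]
    · rw [h7, if_neg h8, if_neg h9]

end Pool.Agent.H72.EMC
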