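import Pool.Agent.H72.EM.Basic

/-!
# Exact matching in cubic graphs: local matchings of the ladder (helper72)
-/

set_option autoImplicit false

open Finset

namespace Pool.Agent.H72.EMC

open Pool.Agent.H72.EM

theorem f3 (a : Fin 3) : a = 0 ∨ a = 1 ∨ a = 2 := by
  fin_cases a <;> simp

/-- red darts in many columns -/
theorem la_cnt {m : ℕ} (χ : PV m → Fin 3)
    (h : ∀ j : Fin (m + 1), j.val < m → rd (.x j, χ (.x j)) = true ∨ rd (.y j, χ (.y j)) = true) :
    m ≤ rcnt χ := by
  classical
  have h1 : ∀ j : Fin m, ∃ q : PV m, rd (q, χ q) = true ∧ (q = .x j.castSucc ∨ q = .y j.castSucc) := by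
    intro j
    rcases h j.castSucc (by simp) with h2 | h2
    · exact ⟨_, h2, Or.inl rfl⟩
    · exact ⟨_, h2, Or.inr rfl⟩
  choose f hf hg using h1
  have h2 : Function.Injective f := by
    intro i j hij
    have h3 := hg i
    have h4 := hg j
    rw [hij] at h3
    rcases h3 with h3 | h3 <;> rcases h4 with h4 | h4 <;> rw [h3] at h4 <;> simp at h4
    · exact h4
    · exact h4
  unfold rcnt
  calc m = (univ : Finset (Fin m)).card := by simp
    _ = (univ.image f).card := (card_image_of_injective _ h2).symm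
    _ ≤ _ := by
      apply card_le_card
      intro q hq
      rw [mem_image] at hq
      obtain ⟨j, _, rfl⟩ := hq
      simp [hf j]

theorem pf_LA : T_LA := by
  intro m k χ hM hr
  have L0 : χ .a = 1 ↔ χ (.x 0) = 0 := hM .a 1 (.x 0) 0 rfl
  have L1 : χ .a = 2 ↔ χ (.y 0) = 0 := hM .a 2 (.y 0) 0 rfl
  have L2 : ∀ j, χ (.x j) = 2 ↔ χ (.y j) = 2 := fun j => hM (.x j) 2 (.y j) 2 rfl
  have L3 : ∀ (j : ℕ) (h : j + 1 < m + 1), χ (.x ⟨j, by omega⟩) = 1 ↔ χ (.y ⟨j + 1, h⟩) = 0 := by
    intro j h
    apply hM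
    have h1 : ¬ j = m := by omega
    simp [io, h1]
  have L4 : ∀ (j : ℕ) (h : j + 1 < m + 1), χ (.y ⟨j, by omega⟩) = 1 ↔ χ (.x ⟨j + 1, h⟩) = 0 := by
    intro j h
    apply hM
    have h1 : ¬ j = m := by omega
    simp [io, h1]
  rcases f3 (χ .a) with h0 | h0 | h0
  · exfalso
    have key : ∀ (j : ℕ) (h : j < m + 1), (χ (.x ⟨j, h⟩) = 0 ∧ χ (.y ⟨j, h⟩) = 0) ∨
        (χ (.x ⟨j, h⟩) = 1 ∧ χ (.y ⟨j, h⟩) = 1) ∨ (χ (.x ⟨j, h⟩) = 2 ∧ χ (.y ⟨j, h⟩) = 2) := by
      intro j
      induction j with
      | zero =>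
        intro h
        have a1 : ¬ χ (.x ⟨0, h⟩) = 0 := by
          intro h2
          rw [show (⟨0, h⟩ : Fin (m + 1)) = 0 from rfl] at h2
          rw [L0.2 h2] at h0
          exact absurd h0 (by decide)
        have a2 : ¬ χ (.y ⟨0, h⟩) = 0 := by
          intro h2
          rw [show (⟨0, h⟩ : Fin (m + 1)) = 0 from rfl] at h2
          rw [L1.2 h2] at h0
          exact absurd h0 (by decide)
        have a3 := L2 ⟨0, h⟩
        rcases f3 (χ (.x ⟨0, h⟩)) with b | b | b
        · exact absurd b a1
        · rcases f3 (χ (.y ⟨0, h⟩)) with d | d | d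
          · exact absurd d a2
          · exact Or.inr (Or.inl ⟨b, d⟩)
          · rw [a3.2 d] at b
            exact absurd b (by decide)
        · exact Or.inr (Or.inr ⟨b, a3.1 b⟩)
      | succ j ih =>
        intro h
        have a3 := L2 ⟨j + 1, h⟩
        have b3 := L3 j h
        have b4 := L4 j h
        rcases ih (by omega) with ⟨c1, c2⟩ | ⟨c1, c2⟩ | ⟨c1, c2⟩
        · rw [c1] at b3
          rw [c2] at b4
          rcases f3 (χ (.x ⟨j + 1, h⟩)) with b | b | b
          · exact absurd (b4.2 b) (by decide)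
          · rcases f3 (χ (.y ⟨j + 1, h⟩)) with d | d | d
            · exact absurd (b3.2 d) (by decide)
            · exact Or.inr (Or.inl ⟨b, d⟩)
            · rw [a3.2 d] at b
              exact absurd b (by decide)
          · exact Or.inr (Or.inr ⟨b, a3.1 b⟩)
        · exact Or.inl ⟨b4.1 c2, b3.1 c1⟩
        · rw [c1] at b3
          rw [c2] at b4
          rcases f3 (χ (.x ⟨j + 1, h⟩)) with b | b | b
          · exact absurd (b4.2 b) (by decide)
          · rcases f3 (χ (.y ⟨j + 1, h⟩)) with d | d | d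
            · exact absurd (b3.2 d) (by decide)
            · exact Or.inr (Or.inl ⟨b, d⟩)
            · rw [a3.2 d] at b
              exact absurd b (by decide)
          · exact Or.inr (Or.inr ⟨b, a3.1 b⟩)
    have := la_cnt χ (by
      intro j hj
      have hjm : ¬ j.val = m := by omega
      rcases key j.val j.2 with ⟨c1, c2⟩ | ⟨c1, c2⟩ | ⟨c1, c2⟩
      · right
        rw [show (⟨j.val, j.2⟩ : Fin (m + 1)) = j from rfl] at c2
        rw [c2]; rfl
      · left
        rw [show (⟨j.val, j.2⟩ : Fin (m + 1)) = j from rfl] at c1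
        rw [c1]
        simp [rd, hjm]
      · left
        rw [show (⟨j.val, j.2⟩ : Fin (m + 1)) = j from rfl] at c1
        rw [c1]; rfl)
    omega
  · refine ⟨h0, ?_⟩
    have key : ∀ (j : ℕ) (h : j < m + 1), χ (.x ⟨j, h⟩) = 0 ∧ χ (.y ⟨j, h⟩) = 1 := by
      intro j
      induction j with
      | zero =>
        intro h
        have a1 : χ (.x ⟨0, h⟩) = 0 := L0.1 h0
        have a3 := L2 ⟨0, h⟩
        rw [a1] at a3
        refine ⟨a1, ?_⟩
        rcases f3 (χ (.y ⟨0, h⟩)) with d | d | d
        · rw [show (⟨0, h⟩ : Fin (m + 1)) = 0 from rfl] at d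
          rw [L1.2 d] at h0
          exact absurd h0 (by decide)
        · exact d
        · exact absurd (a3.2 d) (by decide)
      | succ j ih =>
        intro h
        obtain ⟨c1, c2⟩ := ih (by omega)
        have a1 := (L4 j h).1 c2
        have a3 := L2 ⟨j + 1, h⟩
        rw [a1] at a3
        refine ⟨a1, ?_⟩
        rcases f3 (χ (.y ⟨j + 1, h⟩)) with d | d | d
        · have := (L3 j h).2 d
          rw [c1] at this
          exact absurd this (by decide)
        · exact d
        · exact absurd (a3.2 d) (by decide)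
    exact fun j => key j.val j.2
  · exfalso
    have key : ∀ (j : ℕ) (h : j < m + 1), χ (.y ⟨j, h⟩) = 0 ∧ χ (.x ⟨j, h⟩) = 1 := by
      intro j
      induction j with
      | zero =>
        intro h
        have a1 : χ (.y ⟨0, h⟩) = 0 := L1.1 h0
        have a3 := L2 ⟨0, h⟩
        rw [a1] at a3
        refine ⟨a1, ?_⟩
        rcases f3 (χ (.x ⟨0, h⟩)) with d | d | d
        · rw [show (⟨0, h⟩ : Fin (m + 1)) = 0 from rfl] at d
          rw [L0.2 d] at h0
          exact absurd h0 (by decide)
        · exact d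
        · exact absurd (a3.1 d) (by decide)
      | succ j ih =>
        intro h
        obtain ⟨c1, c2⟩ := ih (by omega)
        have a1 := (L3 j h).1 c2
        have a3 := L2 ⟨j + 1, h⟩
        rw [a1] at a3
        refine ⟨a1, ?_⟩
        rcases f3 (χ (.x ⟨j + 1, h⟩)) with d | d | d
        · have := (L4 j h).2 d
          rw [c1] at this
          exact absurd this (by decide)
        · exact d
        · exact absurd (a3.1 d) (by decide)
    have := la_cnt χ (by
      intro j hj
      right
      have c1 := (key j.val j.2).1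
      rw [show (⟨j.val, j.2⟩ : Fin (m + 1)) = j from rfl] at c1
      rw [c1]; rfl)
    omega

end Pool.Agent.H72.EMC
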