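import Pool.Agent.H72.EMC.PI

/-!
# Exact matching in cubic graphs: the number of colourings (helper72)
-/

set_option autoImplicit false

open Finset

namespace Pool.Agent.H72.EMC

open Pool.Agent.H72.EM

variable {κ m : ℕ}

/-- the darts of the final graph coming from the host -/
theorem ft_lft (c : Ix κ → Ix κ → ℕ) (x : Dt (Hs κ)) :
    (ft c (lft x) : Dt (Vt κ m)) = lft (ht c x) := by
  obtain ⟨⟨b, o⟩, l⟩ := x
  cases o with
  | none => rfl
  | some s =>
    have h1 : io (kd b s) (lgv l : PV m) 0 = .inr l := (pi_2 m _ _ _ _).2 ⟨rfl, rfl⟩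
    simp only [lft, ft, h1]

theorem card_Hs : Fintype.card (Hs κ × Bool) = 16 * ((2 * κ + 2) * (2 * κ + 3)) := by
  have h1 : Fintype.card (Option Sl) = 8 := by decide
  rw [Fintype.card_prod, Fintype.card_prod, Fintype.card_prod, h1, Fintype.card_option,
    Fintype.card_fin, Fintype.card_bool]
  ring

theorem pf_NC (h1 : T_UC) (h2 : T_TI) : T_NC := by
  intro κ m c hS
  have hinj : Function.Injective (fun (f : {f : Dt (Vt κ m) → Fin 3 // IsCol (ft c) f})
      (y : Hs κ × Bool) => if y.2 then f.1 (lft (y.1, 2)) else f.1 (lft (y.1, 0))) := by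
    rintro ⟨f, hf⟩ ⟨g, hg⟩ h
    have h3 : ∀ h', f (lft (h', 2)) = g (lft (h', 2)) := fun h' => congrFun h (h', true)
    have h4 : ∀ h', f (lft (h', 0)) = g (lft (h', 0)) := fun h' => congrFun h (h', false)
    apply Subtype.ext
    apply h1 κ m c hS f g hf hg
    rintro ⟨h', l⟩
    rcases (by revert l; decide : ∀ l : Fin 3, l = 0 ∨ l = 1 ∨ l = 2) l with rfl | rfl | rfl
    · exact h4 h'
    · have h5 : (ft c (lft (h', 1)) : Dt (Vt κ m)) = lft (pv h', 2) := ft_lft c _
      have h6 := hf.inv (lft (h', 1))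
      have h7 := hg.inv (lft (h', 1))
      rw [h5] at h6 h7
      rw [← h6, ← h7]
      exact h3 _
    · exact h3 h'
  have h5 := Nat.card_le_card_of_injective _ hinj
  refine h5.trans ?_
  rw [Nat.card_eq_fintype_card, Fintype.card_fun, card_Hs, Fintype.card_fin]
  calc 3 ^ (16 * ((2 * κ + 2) * (2 * κ + 3))) ≤ 4 ^ (16 * ((2 * κ + 2) * (2 * κ + 3))) :=
        Nat.pow_le_pow_left (by norm_num) _
    _ = 2 ^ (32 * ((2 * κ + 2) * (2 * κ + 3))) := by
        rw [show (4 : ℕ) = 2 ^ 2 by norm_num, ← pow_mul]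
        congr 1
        ring

end Pool.Agent.H72.EMC
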