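import Pool.Agent.H72.EM.Basic

/-!
# Exact matching in cubic graphs: two colour classes connect a pole (helper72)
-/

set_option autoImplicit false

open Finset

namespace Pool.Agent.H72.EMC

open Pool.Agent.H72.EM Relation

/-- steps inside a pole by edges whose colour is not `d` -/
def PR {m : ℕ} (k : Bool) (F G d : Fin 3) (q q' : PV m) : Prop :=
  ∃ a a', io k q a = .inl (q', a') ∧ pcol k F G (q, a) ≠ d

theorem PR_symm (hP : T_PI) {m : ℕ} (k : Bool) (F G d : Fin 3) :
    Std.Symm (PR k F G d : PV m → PV m → Prop) := by
  constructor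
  rintro q q' ⟨a, a', h, h'⟩
  obtain ⟨h1, h2, h3, h4⟩ := (hP m k).1 q a q' a' h
  exact ⟨a', a, h1, by rw [h4]; exact h'⟩

theorem pc_all (hP : T_PI) {m : ℕ} (k : Bool) (F G d : Fin 3) (hF : F ≠ 0) (hG : G ≠ 0) (hFG : F ≠ G)
    (q : PV m) : ReflTransGen (PR k F G d) .a q := by
  have hs := PR_symm hP (m := m) k F G d
  -- one step
  have st : ∀ {u v : PV m} (a a' : Fin 3), ReflTransGen (PR k F G d) .a u →
      io k u a = .inl (v, a') → pcol k F G (u, a) ≠ d → ReflTransGen (PR k F G d) .a v :=
    fun a a' h h1 h2 => h.tail ⟨a, a', h1, h2⟩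
  have sb : ∀ {u v : PV m} (a a' : Fin 3), ReflTransGen (PR k F G d) .a v →
      io k u a = .inl (v, a') → pcol k F G (u, a) ≠ d → ReflTransGen (PR k F G d) .a u :=
    fun a a' h h1 h2 => h.tail (hs.symm _ _ ⟨a, a', h1, h2⟩)
  have r0 : ReflTransGen (PR k F G d) (.a : PV m) .a := ReflTransGen.refl
  by_cases hd : d = G
  · subst hd
    have key : ∀ (j : ℕ) (h : j < m + 1), ReflTransGen (PR k F d d) (.a : PV m) (.x ⟨j, h⟩) ∧
        ReflTransGen (PR k F d d) (.a : PV m) (.y ⟨j, h⟩) := by
      intro j
      induction j with
      | zero =>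
        intro h
        refine ⟨st 1 0 r0 rfl ?_, st 2 0 r0 rfl ?_⟩
        · cases k
          · exact hFG
          · exact hG.symm
        · cases k
          · exact hG.symm
          · exact hFG
      | succ j ih =>
        intro h
        obtain ⟨h1, h2⟩ := ih (by omega)
        have hm : ¬ j = m := by omega
        refine ⟨st 1 0 h2 (by simp [io, hm]) ?_, st 1 0 h1 (by simp [io, hm]) ?_⟩
        · cases k
          · exact hFG
          · exact hG.symm
        · cases k
          · exact hG.symm
          · exact hFG
    have hc1 : ReflTransGen (PR k F d d) (.a : PV m) .c1 := by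
      cases k
      · exact sb 2 1 (key m (by omega)).2 rfl hFG
      · exact sb 2 1 (key m (by omega)).1 rfl hFG
    have hz : ReflTransGen (PR k F d d) (.a : PV m) .z := by
      cases k
      · exact sb 2 1 (key m (by omega)).1 rfl hG.symm
      · exact sb 2 1 (key m (by omega)).2 rfl hG.symm
    have hw : ReflTransGen (PR k F d d) (.a : PV m) .w := st 1 2 hz rfl hFG
    have hc2 : ReflTransGen (PR k F d d) (.a : PV m) .c2 := st 1 2 hw rfl hG.symm
    cases q with
    | x j => exact (key j.val j.2).1
    | y j => exact (key j.val j.2).2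
    | a => exact r0
    | c1 => exact hc1
    | c2 => exact hc2
    | z => exact hz
    | w => exact hw
  · have hd' : G ≠ d := fun h => hd h.symm
    have hw : ReflTransGen (PR k F G d) (.a : PV m) .w := sb 0 0 r0 rfl hd'
    have key : ∀ (j : ℕ) (h : j < m + 1), ReflTransGen (PR k F G d) (.a : PV m) (.x ⟨j, h⟩) ∧
        ReflTransGen (PR k F G d) (.a : PV m) (.y ⟨j, h⟩) := by
      by_cases hp : (if k then 0 else F) = d
      · have hq : (if k then F else 0) ≠ d := by
          cases k
          · intro h
            exact hF (hp.trans h.symm)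
          · intro h
            exact hF (h.trans hp.symm)
        intro j
        induction j with
        | zero =>
          intro h
          have h1 : ReflTransGen (PR k F G d) (.a : PV m) (.y ⟨0, h⟩) := st 2 0 r0 rfl hq
          exact ⟨st 2 2 h1 rfl hd', h1⟩
        | succ j ih =>
          intro h
          obtain ⟨h1, h2⟩ := ih (by omega)
          have hm : ¬ j = m := by omega
          have h3 : ReflTransGen (PR k F G d) (.a : PV m) (.y ⟨j + 1, h⟩) :=
            st 1 0 h1 (by simp [io, hm]) hq
          exact ⟨st 2 2 h3 rfl hd', h3⟩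
      · intro j
        induction j with
        | zero =>
          intro h
          have h1 : ReflTransGen (PR k F G d) (.a : PV m) (.x ⟨0, h⟩) := st 1 0 r0 rfl hp
          exact ⟨h1, st 2 2 h1 rfl hd'⟩
        | succ j ih =>
          intro h
          obtain ⟨h1, h2⟩ := ih (by omega)
          have hm : ¬ j = m := by omega
          have h3 : ReflTransGen (PR k F G d) (.a : PV m) (.x ⟨j + 1, h⟩) :=
            st 1 0 h2 (by simp [io, hm]) hp
          exact ⟨h3, st 2 2 h3 rfl hd'⟩
    have hrest : ReflTransGen (PR k F G d) (.a : PV m) .c1 ∧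
        ReflTransGen (PR k F G d) (.a : PV m) .c2 ∧ ReflTransGen (PR k F G d) (.a : PV m) .z := by
      by_cases h0 : (0 : Fin 3) = d
      · have h1 : F ≠ d := by rw [← h0]; exact hF
        have hz : ReflTransGen (PR k F G d) (.a : PV m) .z := st 2 1 hw rfl h1
        have hc1 : ReflTransGen (PR k F G d) (.a : PV m) .c1 := by
          cases k
          · exact sb 2 1 (key m (by omega)).2 rfl h1
          · exact sb 2 1 (key m (by omega)).1 rfl h1
        exact ⟨hc1, st 1 1 hc1 rfl hd', hz⟩
      · have hc2 : ReflTransGen (PR k F G d) (.a : PV m) .c2 := st 1 2 hw rfl h0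
        have hz : ReflTransGen (PR k F G d) (.a : PV m) .z := by
          cases k
          · exact sb 2 1 (key m (by omega)).1 rfl h0
          · exact sb 2 1 (key m (by omega)).2 rfl h0
        exact ⟨st 1 1 hc2 rfl hd', hc2, hz⟩
    cases q with
    | x j => exact (key j.val j.2).1
    | y j => exact (key j.val j.2).2
    | a => exact r0
    | c1 => exact hrest.1
    | c2 => exact hrest.2.1
    | z => exact hrest.2.2
    | w => exact hw

theorem pf_PC (hP : T_PI) : T_PC := by
  intro m k F G hF hG hFG d q q'
  have hs := PR_symm hP (m := m) k F G d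
  have h1 := pc_all hP k F G d hF hG hFG q
  have h2 := pc_all hP k F G d hF hG hFG q'
  have h3 : ReflTransGen (PR k F G d) q .a := by
    have : Std.Symm (ReflTransGen (PR k F G d : PV m → PV m → Prop)) := ReflTransGen.symmetric
    exact this.symm _ _ h1
  exact h3.trans h2

end Pool.Agent.H72.EMC
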