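import Pool.Agent.H72.EM.Basic

/-!
# Exact matching in cubic graphs: the darts of a pole (helper72)
-/

set_option autoImplicit false

open Finset

namespace Pool.Agent.H72.EMC

open Pool.Agent.H72.EM

theorem pi_1 (m : ℕ) (k : Bool) (q : PV m) (a : Fin 3) (q' : PV m) (a' : Fin 3)
    (h : io k q a = .inl (q', a')) :
    io k q' a' = .inl (q, a) ∧ q' ≠ q ∧ rd (q', a') = rd (q, a) ∧
    ∀ F G : Fin 3, pcol k F G (q', a') = pcol k F G (q, a) := by
  cases q with
  | c1 =>
    fin_cases a <;> cases k <;> simp [io] at h <;> obtain ⟨rfl, rfl⟩ := h <;>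
      simp [io, rd, pcol]
  | c2 =>
    fin_cases a <;> cases k <;> simp [io] at h <;> obtain ⟨rfl, rfl⟩ := h <;>
      simp [io, rd, pcol]
  | z =>
    fin_cases a <;> cases k <;> simp [io] at h <;> obtain ⟨rfl, rfl⟩ := h <;>
      simp [io, rd, pcol]
  | w =>
    fin_cases a <;> cases k <;> simp [io] at h <;> obtain ⟨rfl, rfl⟩ := h <;>
      simp [io, rd, pcol]
  | a =>
    fin_cases a <;> cases k <;> simp [io] at h <;> obtain ⟨rfl, rfl⟩ := h <;>
      simp [io, rd, pcol]
  | x j =>
    obtain ⟨j, hj⟩ := j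
    fin_cases a
    · by_cases h0 : j = 0
      · subst h0
        cases k <;> simp [io] at h <;> obtain ⟨rfl, rfl⟩ := h <;> simp [io, rd, pcol]
      · have h1 : ¬ (j - 1 = m) := by omega
        have h2 : j - 1 + 1 = j := by omega
        cases k <;> simp [io, h0] at h <;> obtain ⟨rfl, rfl⟩ := h <;>
          simp [io, rd, pcol, h1, h2]
    · by_cases h0 : j = m
      · subst h0
        cases k <;> simp [io] at h <;> obtain ⟨rfl, rfl⟩ := h <;>
          simp [io, rd, pcol, Fin.last]
      · cases k <;> simp [io, h0] at h <;> obtain ⟨rfl, rfl⟩ := h <;>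
          simp [io, rd, pcol, h0]
    · cases k <;> simp [io] at h <;> obtain ⟨rfl, rfl⟩ := h <;>
          simp [io, rd, pcol]
  | y j =>
    obtain ⟨j, hj⟩ := j
    fin_cases a
    · by_cases h0 : j = 0
      · subst h0
        cases k <;> simp [io] at h <;> obtain ⟨rfl, rfl⟩ := h <;> simp [io, rd, pcol]
      · have h1 : ¬ (j - 1 = m) := by omega
        have h2 : j - 1 + 1 = j := by omega
        cases k <;> simp [io, h0] at h <;> obtain ⟨rfl, rfl⟩ := h <;>
          simp [io, rd, pcol, h1, h2]
    · by_cases h0 : j = m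
      · subst h0
        cases k <;> simp [io] at h <;> obtain ⟨rfl, rfl⟩ := h <;>
          simp [io, rd, pcol, Fin.last]
      · cases k <;> simp [io, h0] at h <;> obtain ⟨rfl, rfl⟩ := h <;>
          simp [io, rd, pcol, h0]
    · cases k <;> simp [io] at h <;> obtain ⟨rfl, rfl⟩ := h <;>
          simp [io, rd, pcol]

theorem pi_2 (m : ℕ) (k : Bool) (q : PV m) (a l : Fin 3) :
    io k q a = .inr l ↔ q = lgv l ∧ a = 0 := by
  cases q with
  | x j =>
    obtain ⟨j, hj⟩ := j
    fin_cases a <;> fin_cases l <;> simp only [io, lgv] <;> (try split_ifs) <;> simp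
  | y j =>
    obtain ⟨j, hj⟩ := j
    fin_cases a <;> fin_cases l <;> simp only [io, lgv] <;> (try split_ifs) <;> simp
  | _ => fin_cases a <;> fin_cases l <;> cases k <;> simp [io, lgv]

theorem pi_3 (m : ℕ) (k : Bool) (q : PV m) (a b : Fin 3) (q' : PV m) (a' b' : Fin 3)
    (h : io k q a = .inl (q', a')) (h' : io k q b = .inl (q', b')) : a = b := by
  cases q with
  | x j =>
    obtain ⟨j, hj⟩ := j
    fin_cases a <;> fin_cases b <;> first | rfl | skip
    all_goals
      exfalso
      simp only [io] at h h'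
      split_ifs at h h' <;> simp at h h' <;> (obtain ⟨rfl, rfl⟩ := h; simp at h') <;> omega
  | y j =>
    obtain ⟨j, hj⟩ := j
    fin_cases a <;> fin_cases b <;> first | rfl | skip
    all_goals
      exfalso
      simp only [io] at h h'
      split_ifs at h h' <;> simp at h h' <;> (obtain ⟨rfl, rfl⟩ := h; simp at h') <;> omega
  | _ =>
    fin_cases a <;> fin_cases b <;> first | rfl | skip
    all_goals
      exfalso
      cases k <;> simp [io] at h h' <;> (obtain ⟨rfl, rfl⟩ := h; simp at h')

theorem pi_4 (m : ℕ) (k : Bool) (F G : Fin 3) (hF : F ≠ 0) (hG : G ≠ 0) (hFG : F ≠ G) (q : PV m)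
    (a b : Fin 3) (h : pcol k F G (q, a) = pcol k F G (q, b)) : a = b := by
  cases q <;> fin_cases a <;> fin_cases b <;> cases k <;> simp [pcol] at h ⊢ <;>
    first
      | exact hF h
      | exact hG h
      | exact hFG h
      | exact hF h.symm
      | exact hG h.symm
      | exact hFG h.symm

theorem pf_PI : T_PI := by
  intro m k
  refine ⟨fun q a q' a' h => pi_1 m k q a q' a' h, fun q a l => pi_2 m k q a l,
    fun q a b q' a' b' h h' => pi_3 m k q a b q' a' b' h h', fun F G hF hG hFG q a b h =>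
    pi_4 m k F G hF hG hFG q a b h, fun F G => ⟨rfl, rfl, rfl⟩⟩

end Pool.Agent.H72.EMC
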