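import Pool.Agent.H72.EM.Basic

/-!
# Exact matching in cubic graphs: the legs of a local matching (helper72)
-/

set_option autoImplicit false

open Finset

namespace Pool.Agent.H72.EMC

open Pool.Agent.H72.EM

theorem po_zero {m : ℕ} (χ : PV m → Fin 3) (ha : χ .a = 1) (hx : ∀ j, χ (.x j) = 0 ∧ χ (.y j) = 1) :
    rcnt χ = 0 := by
  unfold rcnt
  rw [card_eq_zero, filter_eq_empty_iff]
  intro q _
  cases q with
  | c1 => simp [rd]
  | c2 => simp [rd]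
  | z => simp [rd]
  | w => simp [rd]
  | a => rw [ha]; simp [rd]
  | x j => rw [(hx j).1]; simp [rd]
  | y j => rw [(hx j).2]; simp [rd]

theorem pf_PO (h : T_LA) : T_PO := by
  intro m k χ hM hr
  obtain ⟨ha, hx⟩ := h m k χ hM hr
  refine ⟨po_zero χ ha hx, ?_, ?_⟩
  · rintro rfl
    have e1 : χ .c1 = 2 ↔ χ (.x (Fin.last m)) = 1 := hM .c1 2 (.x (Fin.last m)) 1 rfl
    have e2 : χ .z = 2 ↔ χ (.y (Fin.last m)) = 1 := hM .z 2 (.y (Fin.last m)) 1 rfl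
    have e3 : χ .w = 0 ↔ χ .a = 0 := hM .w 0 .a 0 rfl
    have e4 : χ .w = 1 ↔ χ .c2 = 2 := hM .w 1 .c2 2 rfl
    have e5 : χ .w = 2 ↔ χ .z = 1 := hM .w 2 .z 1 rfl
    have e6 : χ .c1 = 1 ↔ χ .c2 = 1 := hM .c1 1 .c2 1 rfl
    rw [(hx _).1] at e1
    rw [(hx _).2] at e2
    rw [ha] at e3
    change χ .c1 = 0 ∧ χ .c2 ≠ 0 ∧ χ .z ≠ 0
    generalize χ .c1 = A at *
    generalize χ .c2 = B at *
    generalize χ .z = C at *
    generalize χ .w = D at *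
    clear hx hr hM ha
    revert A B C D
    decide
  · rintro rfl
    have e1 : χ .c1 = 2 ↔ χ (.y (Fin.last m)) = 1 := hM .c1 2 (.y (Fin.last m)) 1 rfl
    have e2 : χ .z = 2 ↔ χ (.x (Fin.last m)) = 1 := hM .z 2 (.x (Fin.last m)) 1 rfl
    have e3 : χ .w = 0 ↔ χ .a = 0 := hM .w 0 .a 0 rfl
    have e4 : χ .w = 1 ↔ χ .c2 = 2 := hM .w 1 .c2 2 rfl
    have e5 : χ .w = 2 ↔ χ .z = 1 := hM .w 2 .z 1 rfl
    have e6 : χ .c1 = 1 ↔ χ .c2 = 1 := hM .c1 1 .c2 1 rfl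
    rw [(hx _).2] at e1
    rw [(hx _).1] at e2
    rw [ha] at e3
    change χ .c1 ≠ 0 ∧ (χ .c2 = 0 ↔ χ .z ≠ 0)
    generalize χ .c1 = A at *
    generalize χ .c2 = B at *
    generalize χ .z = C at *
    generalize χ .w = D at *
    clear hx hr hM ha
    revert A B C D
    decide

end Pool.Agent.H72.EMC
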