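import Pool.Agent.H72.EM.Basic

/-!
# Exact matching in cubic graphs: colourings of a pole (helper72)
-/

set_option autoImplicit false

open Finset

namespace Pool.Agent.H72.EMC

open Pool.Agent.H72.EM

/-- three different colours -/
def D3 (a b c : Fin 3) : Prop := a ≠ b ∧ a ≠ c ∧ b ≠ c

instance (a b c : Fin 3) : Decidable (D3 a b c) := by unfold D3; infer_instance

theorem pu_col : ∀ s b r : Fin 3, D3 s b r → ∀ x1 x2 : Fin 3, D3 b x1 x2 → ∀ y1 : Fin 3, D3 r y1 x2 →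
    x1 = r ∧ x2 = s ∧ y1 = b := by decide

theorem pu_out : ∀ E x y : Fin 3, D3 E x y → ∀ F u : Fin 3, D3 F x u → ∀ s t : Fin 3, D3 s u t →
    ∀ G v : Fin 3, D3 G t v → D3 s y v → x = G ∧ y = F ∧ u = E ∧ t = F ∧ v = E ∧ s = G := by decide

/-- the colouring of a pole with the leg colours `E, F, G` -/
def pcE {m : ℕ} (kd : Bool) (E F G : Fin 3) : Dt (PV m) → Fin 3
  | (.c1, 0) => E
  | (.c1, 1) => G
  | (.c1, 2) => F
  | (.c2, 0) => F
  | (.c2, 1) => G
  | (.c2, 2) => E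
  | (.z, 0) => G
  | (.z, 1) => F
  | (.z, 2) => E
  | (.w, 0) => G
  | (.w, 1) => E
  | (.w, 2) => F
  | (.a, 0) => G
  | (.a, 1) => if kd then E else F
  | (.a, 2) => if kd then F else E
  | (.x _, 0) => if kd then E else F
  | (.x _, 1) => if kd then F else E
  | (.x _, 2) => G
  | (.y _, 0) => if kd then F else E
  | (.y _, 1) => if kd then E else F
  | (.y _, 2) => G

theorem pu_lad (m : ℕ) (k : Bool) (f : Dt (PV m) → Fin 3)
    (hs : ∀ (q : PV m) (a : Fin 3) (q' : PV m) (a' : Fin 3), io k q a = .inl (q', a') →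
      f (q', a') = f (q, a))
    (hd : ∀ q, D3 (f (q, 0)) (f (q, 1)) (f (q, 2))) :
    ∀ (j : ℕ) (h : j < m + 1), f (.x ⟨j, h⟩, 0) = f (.a, 1) ∧ f (.x ⟨j, h⟩, 1) = f (.a, 2) ∧
      f (.x ⟨j, h⟩, 2) = f (.a, 0) ∧ f (.y ⟨j, h⟩, 0) = f (.a, 2) ∧ f (.y ⟨j, h⟩, 1) = f (.a, 1) ∧
      f (.y ⟨j, h⟩, 2) = f (.a, 0) := by
  intro j
  induction j with
  | zero =>
    intro h
    have e1 : f (.x ⟨0, h⟩, 0) = f (.a, 1) := hs .a 1 (.x ⟨0, h⟩) 0 rfl
    have e2 : f (.y ⟨0, h⟩, 0) = f (.a, 2) := hs .a 2 (.y ⟨0, h⟩) 0 rfl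
    have e3 : f (.y ⟨0, h⟩, 2) = f (.x ⟨0, h⟩, 2) := hs (.x ⟨0, h⟩) 2 (.y ⟨0, h⟩) 2 rfl
    have d1 := hd (.x ⟨0, h⟩)
    have d2 := hd (.y ⟨0, h⟩)
    rw [e1] at d1
    rw [e2, e3] at d2
    obtain ⟨h1, h2, h3⟩ := pu_col _ _ _ (hd .a) _ _ d1 _ d2
    exact ⟨e1, h1, h2, e2, h3, e3.trans h2⟩
  | succ j ih =>
    intro h
    obtain ⟨_, i1, _, _, i2, _⟩ := ih (by omega)
    have hm : ¬ j = m := by omega
    have e1 : f (.x ⟨j + 1, h⟩, 0) = f (.a, 1) := by
      rw [← i2]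
      apply hs
      simp [io, hm]
    have e2 : f (.y ⟨j + 1, h⟩, 0) = f (.a, 2) := by
      rw [← i1]
      apply hs
      simp [io, hm]
    have e3 : f (.y ⟨j + 1, h⟩, 2) = f (.x ⟨j + 1, h⟩, 2) := hs (.x ⟨j + 1, h⟩) 2 (.y ⟨j + 1, h⟩) 2 rfl
    have d1 := hd (.x ⟨j + 1, h⟩)
    have d2 := hd (.y ⟨j + 1, h⟩)
    rw [e1] at d1
    rw [e2, e3] at d2
    obtain ⟨h1, h2, h3⟩ := pu_col _ _ _ (hd .a) _ _ d1 _ d2
    exact ⟨e1, h1, h2, e2, h3, e3.trans h2⟩

theorem pu_det (m : ℕ) (k : Bool) (f : Dt (PV m) → Fin 3)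
    (hs : ∀ (q : PV m) (a : Fin 3) (q' : PV m) (a' : Fin 3), io k q a = .inl (q', a') →
      f (q', a') = f (q, a))
    (hi : ∀ (q : PV m) (a b : Fin 3), f (q, a) = f (q, b) → a = b) :
    f = pcE k (f (lgv 0, 0)) (f (lgv 1, 0)) (f (lgv 2, 0)) := by
  have hd : ∀ q, D3 (f (q, 0)) (f (q, 1)) (f (q, 2)) := fun q =>
    ⟨fun h => absurd (hi _ _ _ h) (by decide), fun h => absurd (hi _ _ _ h) (by decide),
      fun h => absurd (hi _ _ _ h) (by decide)⟩
  have key := pu_lad m k f hs hd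
  have l1 := key m (by omega)
  have e0 : f (.a, 0) = f (.w, 0) := hs .w 0 .a 0 rfl
  have e4 : f (.c2, 2) = f (.w, 1) := hs .w 1 .c2 2 rfl
  have e5 : f (.z, 1) = f (.w, 2) := hs .w 2 .z 1 rfl
  have e6 : f (.c2, 1) = f (.c1, 1) := hs .c1 1 .c2 1 rfl
  have dc1 := hd .c1
  have dc2 := hd .c2
  have dz := hd .z
  have dw := hd .w
  have da := hd .a
  rw [e6, e4] at dc2
  rw [e5] at dz
  rw [e0] at da
  change f = pcE k (f (.c1, 0)) (f (.c2, 0)) (f (.z, 0))
  cases k with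
  | true =>
    have e1 : f (.x (Fin.last m), 1) = f (.c1, 2) := hs .c1 2 (.x (Fin.last m)) 1 rfl
    have e2 : f (.y (Fin.last m), 1) = f (.z, 2) := hs .z 2 (.y (Fin.last m)) 1 rfl
    have g1 : f (.a, 2) = f (.c1, 2) := by rw [← e1, ← l1.2.1]; rfl
    have g2 : f (.a, 1) = f (.z, 2) := by rw [← e2, ← l1.2.2.2.2.1]; rfl
    rw [g1, g2] at da
    have d5 : D3 (f (.w, 0)) (f (.c1, 2)) (f (.z, 2)) := ⟨da.2.1, da.1, fun h => da.2.2 h.symm⟩
    obtain ⟨h1, h2, h3, h4, h5, h6⟩ := pu_out _ _ _ dc1 _ _ dc2 _ _ dw _ _ dz d5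
    funext x
    obtain ⟨q, a⟩ := x
    cases q with
    | x j =>
      obtain ⟨j, hj⟩ := j
      obtain ⟨i1, i2, i3, i4, i5, i6⟩ := key j hj
      rw [e0, h6] at i3 i6
      rw [g1, h2] at i2 i4
      rw [g2, h5] at i1 i5
      fin_cases a
      · exact i1
      · exact i2
      · exact i3
    | y j =>
      obtain ⟨j, hj⟩ := j
      obtain ⟨i1, i2, i3, i4, i5, i6⟩ := key j hj
      rw [e0, h6] at i3 i6
      rw [g1, h2] at i2 i4
      rw [g2, h5] at i1 i5
      fin_cases a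
      · exact i4
      · exact i5
      · exact i6
    | c1 =>
      fin_cases a
      · rfl
      · exact h1
      · exact h2
    | c2 =>
      fin_cases a
      · rfl
      · exact e6.trans h1
      · exact e4.trans h3
    | z =>
      fin_cases a
      · rfl
      · exact e5.trans h4
      · exact h5
    | w =>
      fin_cases a
      · exact h6
      · exact h3
      · exact h4
    | a =>
      fin_cases a
      · exact e0.trans h6
      · exact g2.trans h5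
      · exact g1.trans h2
  | false =>
    have e1 : f (.y (Fin.last m), 1) = f (.c1, 2) := hs .c1 2 (.y (Fin.last m)) 1 rfl
    have e2 : f (.x (Fin.last m), 1) = f (.z, 2) := hs .z 2 (.x (Fin.last m)) 1 rfl
    have g1 : f (.a, 1) = f (.c1, 2) := by rw [← e1, ← l1.2.2.2.2.1]; rfl
    have g2 : f (.a, 2) = f (.z, 2) := by rw [← e2, ← l1.2.1]; rfl
    rw [g1, g2] at da
    have d5 : D3 (f (.w, 0)) (f (.c1, 2)) (f (.z, 2)) := da
    obtain ⟨h1, h2, h3, h4, h5, h6⟩ := pu_out _ _ _ dc1 _ _ dc2 _ _ dw _ _ dz d5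
    funext x
    obtain ⟨q, a⟩ := x
    cases q with
    | x j =>
      obtain ⟨j, hj⟩ := j
      obtain ⟨i1, i2, i3, i4, i5, i6⟩ := key j hj
      rw [e0, h6] at i3 i6
      rw [g2, h5] at i2 i4
      rw [g1, h2] at i1 i5
      fin_cases a
      · exact i1
      · exact i2
      · exact i3
    | y j =>
      obtain ⟨j, hj⟩ := j
      obtain ⟨i1, i2, i3, i4, i5, i6⟩ := key j hj
      rw [e0, h6] at i3 i6
      rw [g2, h5] at i2 i4
      rw [g1, h2] at i1 i5
      fin_cases a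
      · exact i4
      · exact i5
      · exact i6
    | c1 =>
      fin_cases a
      · rfl
      · exact h1
      · exact h2
    | c2 =>
      fin_cases a
      · rfl
      · exact e6.trans h1
      · exact e4.trans h3
    | z =>
      fin_cases a
      · rfl
      · exact e5.trans h4
      · exact h5
    | w =>
      fin_cases a
      · exact h6
      · exact h3
      · exact h4
    | a =>
      fin_cases a
      · exact e0.trans h6
      · exact g1.trans h2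
      · exact g2.trans h5

theorem pf_PU : T_PU := by
  intro m k f g hs hf hg hl
  rw [pu_det m k f (fun q a q' a' h => (hs q a q' a' h).1) hf,
    pu_det m k g (fun q a q' a' h => (hs q a q' a' h).2) hg, hl 0, hl 1, hl 2]

end Pool.Agent.H72.EMC
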