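import Pool.Agent.H72.EM.Basic

/-!
# Exact matching in cubic graphs: local matchings without red darts (helper72)
-/

set_option autoImplicit false

open Finset

namespace Pool.Agent.H72.EMC

open Pool.Agent.H72.EM

/-- a local matching with prescribed darts outside the ladder -/
def pxm {m : ℕ} (A B C D : Fin 3) : PV m → Fin 3
  | .c1 => A
  | .c2 => B
  | .z => C
  | .w => D
  | .a => 1
  | .x _ => 0
  | .y _ => 1

theorem px_zero {m : ℕ} (A B C D : Fin 3) : rcnt (pxm A B C D : PV m → Fin 3) = 0 := by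
  unfold rcnt
  rw [card_eq_zero, filter_eq_empty_iff]
  intro q _
  cases q <;> simp [rd, pxm]

theorem px_LM {m : ℕ} (k : Bool) (A B C D : Fin 3)
    (h1 : A = 2 ↔ k = false) (h2 : C = 2 ↔ k = true) (h3 : D ≠ 0) (h4 : D = 1 ↔ B = 2)
    (h5 : D = 2 ↔ C = 1) (h6 : A = 1 ↔ B = 1) : LM k (pxm A B C D : PV m → Fin 3) := by
  intro q a q' a' h
  cases q with
  | x j =>
    obtain ⟨j, hj⟩ := j
    fin_cases a <;> simp only [io] at h <;> (try split_ifs at h) <;> cases k <;>
      simp at h <;> obtain ⟨rfl, rfl⟩ := h <;> simp [pxm] <;> simp_all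
  | y j =>
    obtain ⟨j, hj⟩ := j
    fin_cases a <;> simp only [io] at h <;> (try split_ifs at h) <;> cases k <;>
      simp at h <;> obtain ⟨rfl, rfl⟩ := h <;> simp [pxm] <;> simp_all
  | _ =>
    fin_cases a <;> cases k <;> simp [io] at h <;> obtain ⟨rfl, rfl⟩ := h <;>
      simp [pxm] <;> simp_all

theorem pf_PX : T_PX := by
  intro m k l hl hl'
  cases k with
  | true =>
    rw [hl rfl]
    refine ⟨pxm 0 2 2 1, px_LM _ _ _ _ _ (by decide) (by decide) (by decide) (by decide)
      (by decide) (by decide), px_zero _ _ _ _, ?_⟩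
    intro l'
    fin_cases l' <;> simp [lgv, pxm]
  | false =>
    have h0 := hl' rfl
    rcases (by revert h0; revert l; decide : l = 1 ∨ l = 2) with rfl | rfl
    · refine ⟨pxm 2 0 1 2, px_LM _ _ _ _ _ (by decide) (by decide) (by decide) (by decide)
        (by decide) (by decide), px_zero _ _ _ _, ?_⟩
      intro l'
      fin_cases l' <;> simp [lgv, pxm]
    · refine ⟨pxm 2 2 0 1, px_LM _ _ _ _ _ (by decide) (by decide) (by decide) (by decide)
        (by decide) (by decide), px_zero _ _ _ _, ?_⟩
      intro l'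
      fin_cases l' <;> simp [lgv, pxm]

end Pool.Agent.H72.EMC
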