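import Pool.Agent.H72.EM.Basic

/-!
# Exact matching in cubic graphs: reading a bit string (helper72)
-/

set_option autoImplicit false

open Finset

namespace Pool.Agent.H72.EMC

open Pool.Agent.H72.EM Pool.Agent.H68.OQP Pool.Agent.H1.NP

/-- add one to the first entry -/
def inc : List ℕ → List ℕ
  | [] => []
  | x :: l => (x + 1) :: l

/-- the list of the numbers coded by a bit string followed by `false` -/
def dec : List Bool → List ℕ
  | [] => [0]
  | false :: w => 0 :: dec w
  | true :: w => inc (dec w)

theorem dec_ne (w : List Bool) : dec w ≠ [] := by
  induction w with
  | nil => simp [dec]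
  | cons b w ih =>
    cases b with
    | false => simp [dec]
    | true =>
      rw [dec]
      cases h : dec w with
      | nil => exact absurd h ih
      | cons x l => simp [inc]

theorem unary_cons (x : ℕ) (l : List ℕ) : unary (x :: l) = List.replicate x true ++ false :: unary l := by
  simp [unary]

theorem unary_dec (w : List Bool) : unary (dec w) = w ++ [false] := by
  induction w with
  | nil => simp [dec, unary]
  | cons b w ih =>
    cases b with
    | false => rw [dec, unary_cons, ih]; simp
    | true =>
      rw [dec]
      cases h : dec w with
      | nil => exact absurd h (dec_ne w)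
      | cons x l =>
        rw [h, unary_cons] at ih
        rw [inc, unary_cons, List.replicate_succ, List.cons_append, ih]
        rfl

theorem dec_rep (x : ℕ) (w : List Bool) : dec (List.replicate x true ++ false :: w) = x :: dec w := by
  induction x with
  | zero => simp [dec]
  | succ x ih => rw [List.replicate_succ, List.cons_append, dec, ih, inc]

theorem dec_unary (l : List ℕ) : dec (unary l) = l ++ [0] := by
  induction l with
  | nil => rfl
  | cons x l ih => rw [unary_cons, dec_rep, ih]; rfl

/-- the generator of the bit string -/
def rwG : Gn :=
  .seq (.loop (.inp (.con 0)) (.ifle (.inp (.add (.var 0) (.con 1))) (.con 0) (.bit false) (.bit true)))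
    (.bit false)

theorem rw_out (w : List Bool) : rwG.out (bits w) [] = w ++ [false] := by
  have key : ∀ w : List Bool, (List.range w.length).flatMap (fun i =>
      if (bits w).getD (i + 1) 0 ≤ 0 then [false] else [true]) = w := by
    intro w
    have h1 : ∀ i (hi : i < w.length), (if (bits w).getD (i + 1) 0 ≤ 0 then [false] else [true]) =
        [w[i]] := by
      intro i hi
      simp only [bits, List.getD_cons_succ]
      rw [List.getD_eq_getElem _ _ (by simpa using hi)]
      simp only [List.getElem_map]
      cases w[i] <;> simp
    rw [List.flatMap_def]
    rw [show (List.range w.length).map (fun i =>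
      if (bits w).getD (i + 1) 0 ≤ 0 then [false] else [true]) = w.map (fun b => [b]) from ?_]
    · rw [← List.flatMap_def]
      simp
    · apply List.ext_getElem
      · simp
      · intro i h2 h3
        rw [List.getElem_map, List.getElem_map, List.getElem_range]
        exact h1 i (by simpa using h3)
  simp only [rwG, Gn.out, Ex.val]
  have h2 : (bits w).getD 0 0 = w.length := rfl
  rw [h2]
  congr 1
  exact key w

theorem pf_RW : T_RW := by
  refine ⟨dec, ?_, dec_unary⟩
  exact (polyOn_raw.comp (polyOn_gen rwG)).congr (fun w => w) (fun _ => rfl)
    (fun w => by rw [rw_out, unary_dec])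

end Pool.Agent.H72.EMC
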