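import Pool.Agent.H72.EM.Basic
import Pool.Agent.H1.NP.PNP

/-!
# Board emc_modules, row ALL: the assembly (helper72)
-/

set_option autoImplicit false

open Finset Pool.Agent.H72.EM

namespace Pool.Agent.H72.EMC

open Pool.Agent.H68.OQP Pool.Agent.H1.NP

theorem rds_iff {V : Type} {N : ℕ} {τ : Dt V → Dt V} {e : V ≃ Fin N} {red : Dt V → Bool}
    (h : IsPG τ) (hr : ∀ x, red (τ x) = red x) (a b : Fin N) :
    s(a, b) ∈ rds τ e red ↔ ∃ p, (τ (e.symm a, p)).1 = e.symm b ∧ red (e.symm a, p) = true := by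
  constructor
  · rintro ⟨a', b', p, h1, h2, h3⟩
    rcases Sym2.eq_iff.1 h1 with ⟨rfl, rfl⟩ | ⟨rfl, rfl⟩
    · exact ⟨p, h2, h3⟩
    · refine ⟨(τ (e.symm b, p)).2, ?_, ?_⟩
      · rw [← h2, show ((τ (e.symm b, p)).1, (τ (e.symm b, p)).2) = τ (e.symm b, p) from rfl,
          h.inv]
      · rw [← h2, show ((τ (e.symm b, p)).1, (τ (e.symm b, p)).2) = τ (e.symm b, p) from rfl, hr]
        exact h3
  · rintro ⟨p, h1, h2⟩
    exact ⟨a, b, p, rfl, h1, h2⟩

theorem entry_eq {κ m : ℕ} {c : Ix κ → Ix κ → ℕ} {N : ℕ} (E : Vt κ m ≃ Fin N)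
    (h : IsPG (ft c : Dt (Vt κ m) → Dt (Vt κ m))) (hr : ∀ x : Dt (Vt κ m), fr c (ft c x) = fr c x)
    (a b : Fin N) :
    entry (gph (ft c) E h) (rds (ft c) E (fr c)) a b = fe c (E.symm a) (E.symm b) := by
  unfold entry fe
  have h1 : (gph (ft c) E h).Adj a b ↔ ∃ p, (ft c (E.symm a, p)).1 = E.symm b := Iff.rfl
  have h2 := rds_iff (e := E) h hr a b
  by_cases hA : ∃ p, (ft c (E.symm a, p)).1 = E.symm b
  · rw [if_pos (h1.2 hA)]
    by_cases hR : ∃ p, (ft c (E.symm a, p)).1 = E.symm b ∧ fr c (E.symm a, p) = true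
    · rw [if_pos (h2.2 hR), if_pos hR]
    · rw [if_neg (fun hh => hR (h2.1 hh)), if_neg hR, if_pos hA]
  · rw [if_neg (fun hh => hA (h1.1 hh)), if_neg (fun hR => hA ?_), if_neg hA]
    obtain ⟨p, hp, _⟩ := hR
    exact ⟨p, hp⟩

theorem code_eq {n : ℕ} (G : SimpleGraph (Fin n)) (R : Set (Sym2 (Fin n))) (k : ℕ) :
    code G R k = unary (k :: n :: mat (entry G R)) := rfl

theorem polyTime_of_polyOn {f : List Bool → List ℕ} (h : PolyOn (fun w : List Bool => w) unary f) :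
    N68a2faeb.IsPolyTime (fun w => unary (f w)) :=
  Pool.Agent.H1.PNP.isPolyTime_of (h.congr (fun x => x) (fun _ => rfl) (fun _ => rfl))

theorem le_pow_size (e κ k : ℕ) :
    (32 * ((2 * κ + 2) * (2 * κ + 3))) ^ e ≤ szN κ (mm e κ k) := by
  unfold szN szB szP mm
  have h1 : 1 ≤ (2 * κ + 2) * (2 * κ + 3) := Nat.one_le_iff_ne_zero.2 (by positivity)
  generalize (32 * ((2 * κ + 2) * (2 * κ + 3))) ^ e = Q
  calc Q ≤ 1 * (1 + 7 * (2 * (2 * k + 1 + Q + 1) + 5)) := by omega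
    _ ≤ _ := Nat.mul_le_mul_right _ h1

theorem main (h1 : T_GE) (h2 : T_NU) (h3 : T_FA) (h4 : T_FB) (h5 : T_HI) (h6 : T_IH) (h7 : T_TF)
    (h8 : T_FC) (h9 : T_NC) (h10 : T_DB) (h11 : T_DG) (h12 : T_RW) (h13 : T_GI) (h14 : T_GT)
    (h15 : T_GN) (e : ℕ) (hA : ExactMatchingInP (Nearly e)) : ExactMatchingInP AllGraphs := by
  obtain ⟨A, hP, hA⟩ := hA
  obtain ⟨dec, hdec, hdec2⟩ := h12
  obtain ⟨g1, hg1⟩ := h11
  obtain ⟨g2, hg2⟩ := h1 e
  refine ⟨fun w => A (unary (g2.out (g1.out (dec w) []) [])), ?_, ?_⟩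
  · have q1 : PolyOn (fun w : List Bool => w) unary (fun w => g2.out (g1.out (dec w) []) []) :=
      (hdec.comp (polyOn_lg g1)).comp (polyOn_lg g2)
    exact Pool.Agent.H1.PNP.isPolyTime_comp (polyTime_of_polyOn q1) hP
  · intro n G R k hR _
    have hsymm : ∀ i j, entry G R i j = entry G R j i := by
      intro i j
      unfold entry
      rw [G.adj_comm i j, Sym2.eq_swap (a := i) (b := j)]
    have hdiag : ∀ i, entry G R i i = 0 := by
      intro i
      unfold entry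
      rw [if_neg (G.loopless.irrefl i)]
    have hle : ∀ i j, entry G R i j ≤ 2 := by
      intro i j
      unfold entry
      split_ifs <;> omega
    obtain ⟨hSy, hdb⟩ := h10 n k (entry G R) hsymm hdiag hle
    set c : Ix n → Ix n → ℕ := dbl (entry G R) with hc
    obtain ⟨E, hE⟩ := h2 n (mm e n k)
    obtain ⟨hPG, hCol, hred⟩ := h7 n (mm e n k) c hSy
    have hout : g2.out (g1.out (dec (code G R k)) []) [] =
        k :: szN n (mm e n k) :: mat (fun a b => fe c (E.symm a) (E.symm b)) := by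
      rw [code_eq, hdec2]
      have q2 := hg1 n k (entry G R) [0]
      rw [show (k :: n :: mat (entry G R)) ++ [0] = k :: n :: (mat (entry G R) ++ [0]) from rfl, q2]
      have q3 := hg2 n k c [] hSy E hE
      rw [List.append_nil] at q3
      exact q3
    have hcode : unary (g2.out (g1.out (dec (code G R k)) []) []) =
        code (gph (ft c) E hPG) (rds (ft c) E (fr c)) k := by
      rw [hout, code_eq]
      congr 4
      funext a b
      exact (entry_eq E hPG hred a b).symm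
    have hT := h14 (Vt n (mm e n k)) (szN n (mm e n k)) k (ft c) E hPG (fr c) hred
    haveI : Nonempty (Vt n (mm e n k)) := ⟨((zr, none), none)⟩
    have hN : Nearly e (szN n (mm e n k)) (gph (ft c) E hPG) :=
      h15 (Vt n (mm e n k)) (szN n (mm e n k)) e (32 * ((2 * n + 2) * (2 * n + 3))) (ft c) E hPG fcol
        hCol (h8 n (mm e n k) c hSy) (le_pow_size e n k) (h9 n (mm e n k) c hSy)
    show A (unary (g2.out (g1.out (dec (code G R k)) []) [])) = true ↔ _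
    rw [hcode, hA _ _ _ _ hT.1 hN, hT.2, h13 n k G R hR, ← hdb]
    constructor
    · rintro ⟨χ, hχ, hcnt⟩
      obtain ⟨ω, hω, hω2⟩ := h3 n (mm e n k) k c hSy (by unfold mm; omega) χ hχ hcnt
      exact h5 n k c hSy ω hω hω2
    · intro hG
      obtain ⟨ω, hω, hω2⟩ := h6 n k c hSy hG
      obtain ⟨χ, hχ, hχ2⟩ := h4 n (mm e n k) c hSy ω hω
      exact ⟨χ, hχ, hχ2.trans hω2⟩

theorem mono {C D : ∀ n : ℕ, SimpleGraph (Fin n) → Prop} (h : ∀ n G, C n G → D n G)
    (hD : ExactMatchingInP D) : ExactMatchingInP C := by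
  obtain ⟨A, hP, hA⟩ := hD
  exact ⟨A, hP, fun n G R k hR hC => hA n G R k hR (h n G hC)⟩

/-- ALL -/
theorem pf_ALL (h1 : T_GE) (h2 : T_NU) (h3 : T_FA) (h4 : T_FB) (h5 : T_HI) (h6 : T_IH) (h7 : T_TF)
    (h8 : T_FC) (h9 : T_NC) (h10 : T_DB) (h11 : T_DG) (h12 : T_RW) (h13 : T_GI) (h14 : T_GT)
    (h15 : T_GN) (h16 : T_UN) : T_ALL := by
  have key := fun e => main h1 h2 h3 h4 h5 h6 h7 h8 h9 h10 h11 h12 h13 h14 h15 e
  refine ⟨⟨fun h => key 1 (mono (fun n G hG => hG.1) h), fun h => mono (fun _ _ _ => trivial) h⟩, ?_⟩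
  intro e he
  exact ⟨⟨key e, fun h => mono (fun _ _ _ => trivial) h⟩, fun n G hG => h16 e n G he hG⟩

end Pool.Agent.H72.EMC
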